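import Mathlib

set_option autoImplicit false

/-!
# Twin-width of colourings of `r`-subsets: definitions
-/

open Finset

namespace Pool.Agent.T2H11.HT

variable {V κ : Type}

/-- all `r`-subsets of `S` have the same colour -/
def Hom (r : ℕ) (c : Finset V → κ) (S : Finset V) : Prop :=
  ∀ e f : Finset V, e ⊆ S → f ⊆ S → e.card = r → f.card = r → c e = c f

/-- `e` and `f` have the same number of elements in every part of `Q` -/
def SameProfile [DecidableEq V] (Q : Finset (Finset V)) (e f : Finset V) : Prop :=
  ∀ D ∈ Q, (e ∩ D).card = (f ∩ D).card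

/-- the colour of an `r`-set that meets `A` and `B` depends only on its profile -/
def Clear [DecidableEq V] (r : ℕ) (c : Finset V → κ) (Q : Finset (Finset V)) (A B : Finset V) :
    Prop :=
  ∀ e f : Finset V, e.card = r → f.card = r → (e ∩ A).Nonempty → (e ∩ B).Nonempty →
    SameProfile Q e f → c e = c f

open Classical in
/-- The twin-width of the colouring `c` of the `r`-subsets is at most `t`. -/
def TwwLe [Fintype V] [DecidableEq V] (r : ℕ) (c : Finset V → κ) (t : ℕ) : Prop :=
  ∃ P : ℕ → Finset (Finset V),
    P 0 = Finset.univ.image (fun v => {v}) ∧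
    (∀ i, i + 1 < Fintype.card V → ∃ A ∈ P i, ∃ B ∈ P i, A ≠ B ∧
      P (i + 1) = insert (A ∪ B) (((P i).erase A).erase B)) ∧
    (∀ i, i < Fintype.card V → ∀ A ∈ P i,
      ((P i).filter (fun B => B ≠ A ∧ ¬ Clear r c (P i) A B)).card ≤ t)

end Pool.Agent.T2H11.HT
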