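import Mathlib
import Pool.Agent.T2H11.TW.Basic
import Pool.Agent.T2H11.HT.Defs

set_option autoImplicit false

/-!
# Twin-width of colourings of `r`-subsets: definition and the structure lemma
-/

open Finset

namespace Pool.Agent.T2H11.HT

open Pool.Agent.T2H11.TW (IsPart isPart_zero isPart_merge card_merge seq_part)

variable {V κ : Type}

/-- the profile of `insert v W` for `W` inside a part `A` and `v` in another part `B` -/
lemma profile_insert [DecidableEq V] {Q : Finset (Finset V)} (hQ : IsPart Q) {A : Finset V}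
    (hA : A ∈ Q) {v : V} (hv : v ∉ A) {W W' : Finset V} (hW : W ⊆ A)
    (hW' : W' ⊆ A) (hc : W.card = W'.card) : SameProfile Q (insert v W) (insert v W') := by
  intro D hD
  by_cases h : D = A
  · subst h
    rw [insert_inter_of_notMem hv, insert_inter_of_notMem hv, inter_eq_left.2 hW,
      inter_eq_left.2 hW', hc]
  · have h1 := hQ.disj A hA D hD (Ne.symm h)
    have h2 : W ∩ D = ∅ := disjoint_iff_inter_eq_empty.1 (h1.mono_left hW)
    have h3 : W' ∩ D = ∅ := disjoint_iff_inter_eq_empty.1 (h1.mono_left hW')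
    by_cases hvD : v ∈ D
    · rw [insert_inter_of_mem hvD, insert_inter_of_mem hvD, h2, h3]
    · rw [insert_inter_of_notMem hvD, insert_inter_of_notMem hvD, h2, h3]

/-- **Structure lemma.** -/
theorem exists_part [Fintype V] [DecidableEq V] {r t : ℕ} {c : Finset V → κ} (hr2 : 2 ≤ r)
    (h : TwwLe r c t) {U : Finset V} {M : ℕ}
    (hM : 1 ≤ M) (hU : M ≤ U.card) :
    ∃ C ⊆ U, M ≤ C.card ∧ C.card + 1 ≤ 2 * M ∧ ∃ Z ⊆ U, Z.card ≤ t * M ∧
      ∀ v ∈ U, v ∉ C → v ∉ Z → ∀ W W' : Finset V, W ⊆ C → W' ⊆ C → W.card + 1 = r →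
        W'.card + 1 = r → c (insert v W) = c (insert v W') := by
  classical
  obtain ⟨P, h0, hs, hr⟩ := h
  have hpart := seq_part h0 hs
  set n := Fintype.card V with hnV
  have hn : 1 ≤ n := by
    have : U.card ≤ n := card_le_univ U
    omega
  -- a large part at the end
  have hex : ∃ i, i < n ∧ ∃ A ∈ P i, M ≤ (A ∩ U).card := by
    refine ⟨n - 1, by omega, ?_⟩
    obtain ⟨hp, hc⟩ := hpart (n - 1) (by omega)
    have hc1 : (P (n - 1)).card = 1 := by omega
    obtain ⟨A, hA⟩ := card_eq_one.1 hc1
    refine ⟨A, by rw [hA]; simp, ?_⟩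
    have hAu : A = univ := by
      ext v
      simp only [mem_univ, iff_true]
      obtain ⟨B, hB, hv⟩ := hp.cover v
      rw [hA, mem_singleton] at hB
      rwa [← hB]
    rw [hAu, univ_inter]
    exact hU
  set i := Nat.find hex with hi
  obtain ⟨hin, A, hA, hAM⟩ := Nat.find_spec hex
  have hmin : ∀ j < i, ∀ B ∈ P j, (B ∩ U).card < M := by
    intro j hj B hB
    by_contra hcon
    exact Nat.find_min hex hj ⟨by omega, B, hB, by omega⟩
  rw [← hi] at hin hA
  obtain ⟨hp, -⟩ := hpart i hin
  -- size of the part and of the other parts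
  have hsize : (A ∩ U).card + 1 ≤ 2 * M ∧ ∀ B ∈ P i, B ≠ A → (B ∩ U).card ≤ M := by
    rcases Nat.eq_zero_or_pos i with hi0 | hi0
    · rw [hi0, h0] at hA
      rw [hi0, h0]
      have hle : ∀ B ∈ Finset.univ.image (fun v : V => ({v} : Finset V)),
          (B ∩ U).card ≤ 1 := by
        intro B hB
        simp only [mem_image, mem_univ, true_and] at hB
        obtain ⟨b, rfl⟩ := hB
        exact (card_le_card inter_subset_left).trans (by simp)
      refine ⟨?_, fun B hB _ => (hle B hB).trans hM⟩
      have := hle A hA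
      omega
    · obtain ⟨j, hj⟩ : ∃ j, i = j + 1 := ⟨i - 1, by omega⟩
      obtain ⟨A1, hA1, A2, hA2, h12, he⟩ := hs j (by omega)
      have hother : ∀ B ∈ P i, B ≠ A1 ∪ A2 → (B ∩ U).card < M := by
        intro B hB hne
        rw [hj, he, mem_insert] at hB
        rcases hB with hB | hB
        · exact absurd hB hne
        · simp only [mem_erase] at hB
          exact hmin j (by omega) B hB.2.2
      have hAeq : A = A1 ∪ A2 := by
        by_contra hne
        have := hother A hA hne
        omega
      refine ⟨?_, fun B hB hne => (hother B hB (by rw [← hAeq]; exact hne)).le⟩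
      rw [hAeq, union_inter_distrib_right]
      have h3 := card_union_le (A1 ∩ U) (A2 ∩ U)
      have h1 := hmin j (by omega) A1 hA1
      have h2 := hmin j (by omega) A2 hA2
      omega
  set F := (P i).filter (fun B => B ≠ A ∧ ¬ Clear r c (P i) A B) with hF
  have hFc : F.card ≤ t := hr i hin A hA
  refine ⟨A ∩ U, inter_subset_right, hAM, hsize.1, F.biUnion (fun B => B ∩ U), ?_, ?_, ?_⟩
  · intro v hv
    simp only [mem_biUnion, mem_inter] at hv
    obtain ⟨B, _, _, hv⟩ := hv
    exact hv
  · calc (F.biUnion (fun B => B ∩ U)).card ≤ ∑ B ∈ F, (B ∩ U).card := card_biUnion_le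
      _ ≤ ∑ B ∈ F, M := by
          refine sum_le_sum fun B hB => ?_
          rw [hF, mem_filter] at hB
          exact hsize.2 B hB.1 hB.2.1
      _ = F.card * M := by simp
      _ ≤ t * M := Nat.mul_le_mul_right _ hFc
  · intro v hv hvC hvZ W W' hW hW' hWc hWc'
    obtain ⟨B, hB, hvB⟩ := hp.cover v
    have hBA : B ≠ A := by
      rintro rfl
      exact hvC (mem_inter.2 ⟨hvB, hv⟩)
    have hvA : v ∉ A := fun hcon => hvC (mem_inter.2 ⟨hcon, hv⟩)
    have hH : Clear r c (P i) A B := by
      by_contra hcon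
      apply hvZ
      simp only [mem_biUnion, mem_inter]
      exact ⟨B, by rw [hF, mem_filter]; exact ⟨hB, hBA, hcon⟩, hvB, hv⟩
    have hWA : W ⊆ A := hW.trans inter_subset_left
    have hWA' : W' ⊆ A := hW'.trans inter_subset_left
    have hWne : W.Nonempty := by
      rw [← card_pos]; omega
    refine hH (insert v W) (insert v W') ?_ ?_ ?_ ?_ (profile_insert hp hA hvA hWA hWA'
      (by omega))
    · rw [card_insert_of_notMem (fun hh => hvA (hWA hh)), hWc]
    · rw [card_insert_of_notMem (fun hh => hvA (hWA' hh)), hWc']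
    · obtain ⟨w, hw⟩ := hWne
      exact ⟨w, mem_inter.2 ⟨mem_insert_of_mem hw, hWA hw⟩⟩
    · exact ⟨v, mem_inter.2 ⟨mem_insert_self _ _, hvB⟩⟩

/-- **Chains.** Every set of at least `(t + 2) ^ m` vertices contains a sequence of `m + 1` vertices
such that the colour of an `r`-set of these vertices depends only on its last vertex. -/
theorem exists_chain [Fintype V] [DecidableEq V] {r t : ℕ} {c : Finset V → κ} (hr2 : 2 ≤ r)
    (h : TwwLe r c t) : ∀ (m : ℕ) (U : Finset V), (t + 2) ^ m ≤ U.card →
    ∃ (v : ℕ → V) (g : ℕ → κ), (∀ i ≤ m, v i ∈ U) ∧ (∀ i ≤ m, ∀ j ≤ m, v i = v j → i = j) ∧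
      ∀ j ≤ m, ∀ W ⊆ (range j).image v, W.card + 1 = r → c (insert (v j) W) = g j := by
  intro m
  induction m with
  | zero =>
    intro U hU
    rw [pow_zero] at hU
    obtain ⟨x, hx⟩ := card_pos.1 hU
    refine ⟨fun _ => x, fun _ => c ∅, fun i _ => hx, fun i hi j hj _ => by omega, ?_⟩
    intro j hj W hW hWc
    obtain rfl : j = 0 := by omega
    rw [range_zero, image_empty, subset_empty] at hW
    rw [hW, card_empty] at hWc
    omega
  | succ m ih =>
    intro U hU
    have hM : 1 ≤ (t + 2) ^ m := Nat.one_le_pow _ _ (by omega)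
    have hpow : (t + 2) ^ (m + 1) = (t + 2) * (t + 2) ^ m := by ring
    obtain ⟨C, hCU, hMC, hC2, Z, hZU, hZ, hcl⟩ := exists_part hr2 h (U := U) hM (by
      rw [hpow] at hU; nlinarith)
    obtain ⟨v, g, h1, h2, h3⟩ := ih C hMC
    -- a vertex outside
    obtain ⟨x, hxU, hx⟩ : ∃ x ∈ U, x ∉ C ∪ Z := by
      by_contra hcon
      push Not at hcon
      have h4 : U ⊆ C ∪ Z := fun y hy => hcon y hy
      have h5 := (card_le_card h4).trans (card_union_le _ _)
      rw [hpow] at hU
      nlinarith
    rw [mem_union, not_or] at hx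
    -- the common colour
    obtain ⟨γ, hγ⟩ : ∃ γ, ∀ W ⊆ C, W.card + 1 = r → c (insert x W) = γ := by
      by_cases hW0 : ∃ W0 ⊆ C, W0.card + 1 = r
      · obtain ⟨W0, hW0, hc0⟩ := hW0
        exact ⟨c (insert x W0), fun W hW hWc => hcl x hxU hx.1 hx.2 W W0 hW hW0 hWc hc0⟩
      · exact ⟨c ∅, fun W hW hWc => absurd ⟨W, hW, hWc⟩ hW0⟩
    refine ⟨fun i => if i ≤ m then v i else x, fun i => if i ≤ m then g i else γ, ?_, ?_, ?_⟩
    · intro i _
      by_cases hi : i ≤ m
      · simp only [hi, if_true]; exact hCU (h1 i hi)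
      · simp only [hi, if_false]; exact hxU
    · intro i hi j hj hij
      by_cases hi' : i ≤ m <;> by_cases hj' : j ≤ m
      · simp only [hi', hj', if_true] at hij
        exact h2 i hi' j hj' hij
      · simp only [hi', hj', if_true, if_false] at hij
        exact absurd (hij ▸ h1 i hi') hx.1
      · simp only [hi', hj', if_true, if_false] at hij
        exact absurd (hij ▸ h1 j hj') hx.1
      · omega
    · intro j hj W hW hWc
      by_cases hj' : j ≤ m
      · simp only [hj', if_true]
        refine h3 j hj' W (fun y hy => ?_) hWc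
        obtain ⟨i, hi, rfl⟩ := mem_image.1 (hW hy)
        rw [mem_range] at hi
        rw [if_pos (by omega : i ≤ m)]
        exact mem_image_of_mem _ (mem_range.2 hi)
      · simp only [hj', if_false]
        refine hγ W (fun y hy => ?_) hWc
        obtain ⟨i, hi, rfl⟩ := mem_image.1 (hW hy)
        rw [mem_range] at hi
        rw [if_pos (by omega : i ≤ m)]
        exact h1 i (by omega)

/-- **Upper bound.** -/
theorem exists_hom [Fintype V] [DecidableEq V] [Fintype κ] [DecidableEq κ] {r t n : ℕ}
    {c : Finset V → κ}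
    (hr2 : 2 ≤ r) (hrn : r ≤ n) (h : TwwLe r c t)
    (hN : (t + 2) ^ (Fintype.card κ * (n - r) + (r - 1)) ≤ Fintype.card V) :
    ∃ S : Finset V, S.card = n ∧ Hom r c S := by
  obtain ⟨m, hm⟩ : ∃ m, m = Fintype.card κ * (n - r) + (r - 1) := ⟨_, rfl⟩
  rw [← hm] at hN
  obtain ⟨v, g, -, hinj, hcol⟩ := exists_chain hr2 h m univ (by rwa [card_univ])
  -- a popular colour
  obtain ⟨γ, -, hγ⟩ := exists_lt_card_fiber_of_mul_lt_card_of_maps_to
    (s := Icc (r - 1) m) (t := (univ : Finset κ)) (f := g) (n := n - r)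
    (fun _ _ => mem_univ _) (by
      rw [card_univ, Nat.card_Icc]
      omega)
  obtain ⟨T, hT, hTc⟩ := exists_subset_card_eq (n := n - r + 1)
    (s := (Icc (r - 1) m).filter (fun i => g i = γ)) (by omega)
  obtain ⟨I, hI⟩ : ∃ I, I = range (r - 1) ∪ T := ⟨_, rfl⟩
  have hTm : ∀ i ∈ T, r - 1 ≤ i ∧ i ≤ m ∧ g i = γ := by
    intro i hi
    have := hT hi
    rw [mem_filter, mem_Icc] at this
    exact ⟨this.1.1, this.1.2, this.2⟩
  have hIm : ∀ i ∈ I, i ≤ m := by
    intro i hi
    rw [hI, mem_union, mem_range] at hi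
    rcases hi with hi | hi
    · omega
    · exact (hTm i hi).2.1
  have hIg : ∀ i ∈ I, r - 1 ≤ i → g i = γ := by
    intro i hi hri
    rw [hI, mem_union, mem_range] at hi
    rcases hi with hi | hi
    · omega
    · exact (hTm i hi).2.2
  have hIc : I.card = n := by
    rw [hI, card_union_of_disjoint, card_range, hTc]
    · omega
    · rw [disjoint_left]
      intro i hi hi'
      rw [mem_range] at hi
      have := (hTm i hi').1
      omega
  have hvi : Set.InjOn v I := fun i hi j hj hij => hinj i (hIm i hi) j (hIm j hj) hij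
  have key : ∀ e : Finset V, e ⊆ I.image v → e.card = r → c e = γ := by
    intro e he hec
    obtain ⟨E, hE⟩ : ∃ E, E = I.filter (fun i => v i ∈ e) := ⟨_, rfl⟩
    have hEI : E ⊆ I := by rw [hE]; exact filter_subset _ _
    have hEe : E.image v = e := by
      ext y
      rw [mem_image]
      constructor
      · rintro ⟨i, hi, rfl⟩
        rw [hE, mem_filter] at hi
        exact hi.2
      · intro hy
        obtain ⟨i, hi, rfl⟩ := mem_image.1 (he hy)
        exact ⟨i, by rw [hE, mem_filter]; exact ⟨hi, hy⟩, rfl⟩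
    have hEc : E.card = r := by
      rw [← hec, ← hEe, card_image_of_injOn (hvi.mono (by exact_mod_cast hEI))]
    have hEne : E.Nonempty := by rw [← card_pos]; omega
    obtain ⟨j, hj⟩ : ∃ j, j = E.max' hEne := ⟨_, rfl⟩
    have hjE : j ∈ E := by rw [hj]; exact E.max'_mem hEne
    have hle : ∀ i ∈ E, i ≤ j := fun i hi => by rw [hj]; exact E.le_max' i hi
    have hjr : r - 1 ≤ j := by
      have h1 : E ⊆ range (j + 1) := fun i hi => by
        rw [mem_range]; have := hle i hi; omega
      have h2 := card_le_card h1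
      rw [card_range, hEc] at h2
      omega
    have he2 : e = insert (v j) ((E.erase j).image v) := by
      rw [← image_insert, insert_erase hjE, hEe]
    rw [he2]
    have h4 : v j ∉ (E.erase j).image v := by
      intro hcon
      obtain ⟨i, hi, hij⟩ := mem_image.1 hcon
      rw [mem_erase] at hi
      exact hi.1 (hvi (hEI hi.2) (hEI hjE) hij)
    rw [hcol j (hIm j (hEI hjE)) _ ?_ ?_]
    · exact hIg j (hEI hjE) hjr
    · apply image_subset_image
      intro i hi
      rw [mem_erase] at hi
      have := hle i hi.2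
      rw [mem_range]
      omega
    · have h5 : (insert (v j) ((E.erase j).image v)).card = r := by rw [← he2, hec]
      rw [card_insert_of_notMem h4] at h5
      exact h5
  refine ⟨I.image v, by rw [card_image_of_injOn hvi, hIc], ?_⟩
  intro e f he hf hec hfc
  rw [key e he hec, key f hf hfc]

end Pool.Agent.T2H11.HT
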