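import Pool.Agent.T2H11.HT.Basic

set_option autoImplicit false

/-!
# Twin-width of colourings of `r`-subsets: building contraction sequences, restrictions
-/

open Finset

namespace Pool.Agent.T2H11.HT

open Pool.Agent.T2H11.TW (IsPart isPart_zero isPart_merge card_merge seq_part)

variable {V W κ : Type}

open Classical in
/-- all red degrees of the partition `Q` are at most `t` -/
def RD [DecidableEq V] (r : ℕ) (c : Finset V → κ) (t : ℕ) (Q : Finset (Finset V)) : Prop :=
  ∀ A ∈ Q, (Q.filter (fun B => B ≠ A ∧ ¬ Clear r c Q A B)).card ≤ t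

/-- from the partition `Q` one can merge parts `s` times with red degrees at most `t` -/
def Con [DecidableEq V] (r : ℕ) (c : Finset V → κ) (t s : ℕ) (Q : Finset (Finset V)) : Prop :=
  ∃ P : ℕ → Finset (Finset V), P 0 = Q ∧
    (∀ i, i < s → ∃ A ∈ P i, ∃ B ∈ P i, A ≠ B ∧
      P (i + 1) = insert (A ∪ B) (((P i).erase A).erase B)) ∧
    (∀ i, i ≤ s → RD r c t (P i))

section

variable [DecidableEq V] {r t s : ℕ} {c : Finset V → κ} {Q : Finset (Finset V)}

lemma Con.zero (h : RD r c t Q) : Con r c t 0 Q :=
  ⟨fun _ => Q, rfl, fun i hi => absurd hi (by omega), fun _ _ => h⟩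

lemma Con.step {A B : Finset V}
    (h : RD r c t Q) (hA : A ∈ Q) (hB : B ∈ Q) (hAB : A ≠ B)
    (hc : Con r c t s (insert (A ∪ B) ((Q.erase A).erase B))) : Con r c t (s + 1) Q := by
  obtain ⟨P, h0, hs, hr⟩ := hc
  refine ⟨fun i => Nat.casesOn i Q P, rfl, ?_, ?_⟩
  · intro i hi
    cases i with
    | zero => exact ⟨A, hA, B, hB, hAB, h0⟩
    | succ i => exact hs i (by omega)
  · intro i hi
    cases i with
    | zero => exact h
    | succ i => exact hr i (by omega)

lemma Con.head (h : Con r c t (s + 1) Q) : RD r c t Q ∧ ∃ A ∈ Q, ∃ B ∈ Q, A ≠ B ∧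
      Con r c t s (insert (A ∪ B) ((Q.erase A).erase B)) := by
  obtain ⟨P, h0, hs, hr⟩ := h
  obtain ⟨A, hA, B, hB, hAB, he⟩ := hs 0 (by omega)
  rw [h0] at hA hB he
  refine ⟨by rw [← h0]; exact hr 0 (by omega), A, hA, B, hB, hAB, fun i => P (i + 1), he, ?_, ?_⟩
  · intro i hi
    exact hs (i + 1) (by omega)
  · intro i hi
    exact hr (i + 1) (by omega)

lemma Con.rd (h : Con r c t s Q) : RD r c t Q := by
  obtain ⟨P, h0, -, hr⟩ := h
  rw [← h0]
  exact hr 0 (by omega)

lemma rd_of (h : ∀ A ∈ Q, ∀ F : Finset (Finset V), (∀ B ∈ F, B ∈ Q ∧ B ≠ A ∧ ¬ Clear r c Q A B) →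
    F.card ≤ t) : RD r c t Q := by
  classical
  intro A hA
  refine h A hA _ ?_
  intro B hB
  exact Finset.mem_filter.1 hB

lemma RD.le (h : RD r c t Q) {A : Finset V} (hA : A ∈ Q) (F : Finset (Finset V))
    (hF : ∀ B ∈ F, B ∈ Q ∧ B ≠ A ∧ ¬ Clear r c Q A B) : F.card ≤ t := by
  classical
  refine le_trans (card_le_card ?_) (h A hA)
  intro B hB
  rw [mem_filter]
  exact hF B hB

/-- a partition with at most `t + 1` parts has red degrees at most `t` -/
lemma rd_card (h : Q.card ≤ t + 1) : RD r c t Q := by
  refine rd_of fun A hA F hF => ?_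
  have h1 : F ⊆ Q.erase A := by
    intro B hB
    rw [mem_erase]
    exact ⟨(hF B hB).2.1, (hF B hB).1⟩
  have h2 := card_le_card h1
  rw [card_erase_of_mem hA] at h2
  omega

lemma con_small : ∀ (s : ℕ) (Q : Finset (Finset V)),
    IsPart Q → Q.card = s + 1 → Q.card ≤ t + 2 → RD r c t Q → Con r c t s Q := by
  intro s
  induction s with
  | zero => intro Q _ _ _ h; exact Con.zero h
  | succ s ih =>
    intro Q hQ h1 h2 h
    obtain ⟨A, hA, B, hB, hAB⟩ := one_lt_card.1 (by omega : 1 < Q.card)
    have hc := card_merge hQ hA hB hAB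
    exact Con.step h hA hB hAB (ih _ (isPart_merge hQ hA hB) (by omega) (by omega)
      (rd_card (by omega)))

lemma twwLe_iff_con [Fintype V] [Nonempty V] :
    TwwLe r c t ↔ Con r c t (Fintype.card V - 1) (Finset.univ.image (fun v => {v})) := by
  have hn : 0 < Fintype.card V := Fintype.card_pos
  constructor
  · rintro ⟨P, h0, hs, hr⟩
    exact ⟨P, h0, fun i hi => hs i (by omega), fun i hi => hr i (by omega)⟩
  · rintro ⟨P, h0, hs, hr⟩
    exact ⟨P, h0, fun i hi => hs i (by omega), fun i hi => hr i (by omega)⟩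

lemma card_sing [Fintype V] :
    (Finset.univ.image (fun v : V => ({v} : Finset V))).card = Fintype.card V := by
  rw [card_image_of_injective _ (fun a b hab => by simpa using hab), card_univ]

/-- the partition into singletons has no red pairs -/
lemma rd_sing [Fintype V] : RD r c t (Finset.univ.image (fun v : V => ({v} : Finset V))) := by
  refine rd_of fun A hA F hF => ?_
  have h1 : F = ∅ := by
    rw [eq_empty_iff_forall_notMem]
    intro B hB
    obtain ⟨-, -, h⟩ := hF B hB
    apply h
    intro e f _ _ _ _ hp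
    congr 1
    ext v
    have h2 := hp {v} (mem_image_of_mem _ (mem_univ v))
    constructor
    · intro hv
      by_contra hv'
      rw [inter_singleton_of_mem hv, inter_singleton_of_notMem hv'] at h2
      simp at h2
    · intro hv
      by_contra hv'
      rw [inter_singleton_of_mem hv, inter_singleton_of_notMem hv'] at h2
      simp at h2
  rw [h1]
  simp

lemma twwLe_empty [Fintype V] [IsEmpty V] : TwwLe r c t := by
  refine ⟨fun _ => ∅, ?_, ?_, ?_⟩
  · simp
  · intro i hi
    rw [Fintype.card_eq_zero] at hi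
    omega
  · intro i hi
    rw [Fintype.card_eq_zero] at hi
    omega

/-- every colouring on at most `t + 2` vertices has twin-width at most `t` -/
theorem twwLe_all [Fintype V] (h : Fintype.card V ≤ t + 2) : TwwLe r c t := by
  rcases isEmpty_or_nonempty V with hV | hV
  · exact twwLe_empty
  · rw [twwLe_iff_con]
    have hn : 0 < Fintype.card V := Fintype.card_pos
    exact con_small (Fintype.card V - 1) (Finset.univ.image (fun v => {v}))
      isPart_zero (by rw [card_sing]; omega) (by rw [card_sing]; exact h) rd_sing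

end

section

variable [Fintype V] [DecidableEq V] [DecidableEq W]

/-- the preimage of a set -/
def pre (ι : V → W) (A : Finset W) : Finset V := Finset.univ.filter (fun v => ι v ∈ A)

/-- the partition induced on the domain of `ι` -/
def pull (ι : V → W) (Q : Finset (Finset W)) : Finset (Finset V) := (Q.image (pre ι)).erase ∅

omit [DecidableEq V] in
lemma mem_pre {ι : V → W} {A : Finset W} {v : V} : v ∈ pre ι A ↔ ι v ∈ A := by
  simp [pre]

lemma mem_pull {ι : V → W} {Q : Finset (Finset W)} {X : Finset V} :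
    X ∈ pull ι Q ↔ X.Nonempty ∧ ∃ A ∈ Q, pre ι A = X := by
  rw [pull, mem_erase, mem_image, nonempty_iff_ne_empty]

lemma pre_union {ι : V → W} {A B : Finset W} : pre ι (A ∪ B) = pre ι A ∪ pre ι B := by
  ext v
  simp [mem_pre]

lemma isPart_pull {ι : V → W} {Q : Finset (Finset W)} (h : IsPart Q) : IsPart (pull ι Q) where
  cover v := by
    obtain ⟨A, hA, hv⟩ := h.cover (ι v)
    exact ⟨pre ι A, mem_pull.2 ⟨⟨v, mem_pre.2 hv⟩, A, hA, rfl⟩, mem_pre.2 hv⟩
  disj := by
    intro X hX Y hY hXY
    obtain ⟨-, A, hA, rfl⟩ := mem_pull.1 hX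
    obtain ⟨-, B, hB, rfl⟩ := mem_pull.1 hY
    have hAB : A ≠ B := by
      rintro rfl
      exact hXY rfl
    rw [Finset.disjoint_left]
    intro v hv hv'
    exact Finset.disjoint_left.1 (h.disj A hA B hB hAB) (mem_pre.1 hv) (mem_pre.1 hv')
  ne := fun X hX => (mem_pull.1 hX).1

lemma pre_injOn {ι : V → W} {Q : Finset (Finset W)} (h : IsPart Q) {A B : Finset W} (hA : A ∈ Q)
    (hB : B ∈ Q) (hne : (pre ι A).Nonempty) (hAB : pre ι A = pre ι B) : A = B := by
  by_contra hcon
  obtain ⟨v, hv⟩ := hne
  have hv' := hv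
  rw [hAB] at hv'
  exact Finset.disjoint_left.1 (h.disj A hA B hB hcon) (mem_pre.1 hv) (mem_pre.1 hv')

lemma pre_inter_card {ι : V → W} (hι : Function.Injective ι) (e : Finset V) (D : Finset W) :
    (e.image ι ∩ D).card = (e ∩ pre ι D).card := by
  have : e.image ι ∩ D = (e ∩ pre ι D).image ι := by
    ext w
    simp only [mem_inter, mem_image, mem_pre]
    constructor
    · rintro ⟨⟨v, hv, rfl⟩, hw⟩
      exact ⟨v, ⟨hv, hw⟩, rfl⟩
    · rintro ⟨v, ⟨hv, hw⟩, rfl⟩
      exact ⟨⟨v, hv, rfl⟩, hw⟩
  rw [this, card_image_of_injective _ hι]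

lemma clear_pull {r : ℕ} {c : Finset W → κ} {ι : V → W} (hι : Function.Injective ι)
    {Q : Finset (Finset W)} {A B : Finset W} (h : Clear r c Q A B) :
    Clear r (fun e => c (e.image ι)) (pull ι Q) (pre ι A) (pre ι B) := by
  intro e f he hf heA heB hp
  refine h _ _ (by rw [card_image_of_injective _ hι, he]) (by rw [card_image_of_injective _ hι, hf])
    ?_ ?_ ?_
  · obtain ⟨v, hv⟩ := heA
    rw [mem_inter, mem_pre] at hv
    exact ⟨ι v, mem_inter.2 ⟨mem_image_of_mem _ hv.1, hv.2⟩⟩
  · obtain ⟨v, hv⟩ := heB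
    rw [mem_inter, mem_pre] at hv
    exact ⟨ι v, mem_inter.2 ⟨mem_image_of_mem _ hv.1, hv.2⟩⟩
  · intro D hD
    rw [pre_inter_card hι, pre_inter_card hι]
    rcases (pre ι D).eq_empty_or_nonempty with h0 | h0
    · rw [h0, inter_empty, inter_empty]
    · exact hp _ (mem_pull.2 ⟨h0, D, hD, rfl⟩)

lemma rd_pull {r t : ℕ} {c : Finset W → κ} {ι : V → W} (hι : Function.Injective ι)
    {Q : Finset (Finset W)} (hQ : IsPart Q) (h : RD r c t Q) :
    RD r (fun e => c (e.image ι)) t (pull ι Q) := by
  classical
  refine rd_of fun X hX F hF => ?_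
  obtain ⟨hne, A, hA, rfl⟩ := mem_pull.1 hX
  have h1 : F ⊆ (Q.filter (fun B => B ≠ A ∧ ¬ Clear r c Q A B)).image (pre ι) := by
    intro Y hY
    obtain ⟨hY1, hY2, hY3⟩ := hF Y hY
    obtain ⟨-, B, hB, rfl⟩ := mem_pull.1 hY1
    rw [mem_image]
    refine ⟨B, ?_, rfl⟩
    rw [mem_filter]
    exact ⟨hB, fun he => hY2 (by rw [he]), fun hc => hY3 (clear_pull hι hc)⟩
  refine (card_le_card h1).trans (card_image_le.trans ?_)
  exact h.le hA _ fun B hB => by rw [mem_filter] at hB; exact hB

lemma con_pull {r t : ℕ} {c : Finset W → κ} {ι : V → W} (hι : Function.Injective ι) :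
    ∀ (s : ℕ) (Q : Finset (Finset W)), IsPart Q → Q.card = s + 1 → Con r c t s Q →
      ∀ s', (pull ι Q).card = s' + 1 →
        Con r (fun e => c (e.image ι)) t s' (pull ι Q) := by
  intro s
  induction s with
  | zero =>
    intro Q hQ hc h s' hs'
    have h1 : (pull ι Q).card ≤ 1 := by
      have h2 : (pull ι Q).card ≤ (Q.image (pre ι)).card := card_le_card (erase_subset _ _)
      have h3 : (Q.image (pre ι)).card ≤ Q.card := card_image_le
      omega
    obtain rfl : s' = 0 := by omega
    exact Con.zero (rd_pull hι hQ h.rd)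
  | succ s ih =>
    intro Q hQ hc h s' hs'
    obtain ⟨h1, A, hA, B, hB, hAB, h2⟩ := h.head
    have hc2 := card_merge hQ hA hB hAB
    have h3 := ih _ (isPart_merge hQ hA hB) (by omega) h2
    by_cases hAe : (pre ι A).Nonempty
    · by_cases hBe : (pre ι B).Nonempty
      · -- a real merge
        have hA' : pre ι A ∈ pull ι Q := mem_pull.2 ⟨hAe, A, hA, rfl⟩
        have hB' : pre ι B ∈ pull ι Q := mem_pull.2 ⟨hBe, B, hB, rfl⟩
        have hne : pre ι A ≠ pre ι B := fun he => hAB (pre_injOn hQ hA hB hAe he)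
        have he : pull ι (insert (A ∪ B) ((Q.erase A).erase B)) =
            insert (pre ι A ∪ pre ι B) (((pull ι Q).erase (pre ι A)).erase (pre ι B)) := by
          ext X
          rw [mem_pull]
          simp only [mem_insert, mem_erase, mem_pull]
          constructor
          · rintro ⟨hX, C, hC | hC, rfl⟩
            · left
              rw [hC, pre_union]
            · right
              refine ⟨fun he => hC.1 (pre_injOn hQ hC.2.2 hB hX he),
                fun he => hC.2.1 (pre_injOn hQ hC.2.2 hA hX he), hX, C, hC.2.2, rfl⟩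
          · rintro (rfl | ⟨hXB, hXA, hX, C, hC, rfl⟩)
            · refine ⟨hAe.mono subset_union_left, A ∪ B, Or.inl rfl, pre_union⟩
            · refine ⟨hX, C, Or.inr ⟨?_, ?_, hC⟩, rfl⟩
              · rintro rfl; exact hXB rfl
              · rintro rfl; exact hXA rfl
        have hcm := card_merge (isPart_pull hQ) hA' hB' hne
        have h2' : 1 < (pull ι Q).card := one_lt_card.2 ⟨_, hA', _, hB', hne⟩
        obtain ⟨s'', rfl⟩ : ∃ s'', s' = s'' + 1 := ⟨s' - 1, by omega⟩
        refine Con.step (rd_pull hι hQ h1) hA' hB' hne ?_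
        rw [← he]
        apply h3
        rw [he]
        omega
      · -- B is not met
        rw [not_nonempty_iff_eq_empty] at hBe
        have he : pull ι (insert (A ∪ B) ((Q.erase A).erase B)) = pull ι Q := by
          ext X
          rw [mem_pull, mem_pull]
          simp only [mem_insert, mem_erase]
          constructor
          · rintro ⟨hX, C, hC | hC, rfl⟩
            · refine ⟨hX, A, hA, ?_⟩
              rw [hC, pre_union, hBe, union_empty]
            · exact ⟨hX, C, hC.2.2, rfl⟩
          · rintro ⟨hX, C, hC, rfl⟩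
            refine ⟨hX, ?_⟩
            by_cases h4 : C = A
            · refine ⟨A ∪ B, Or.inl rfl, ?_⟩
              rw [h4, pre_union, hBe, union_empty]
            · refine ⟨C, Or.inr ⟨?_, h4, hC⟩, rfl⟩
              rintro rfl
              rw [hBe] at hX
              exact Finset.not_nonempty_empty hX
        rw [he] at h3
        exact h3 s' hs'
    · rw [not_nonempty_iff_eq_empty] at hAe
      have he : pull ι (insert (A ∪ B) ((Q.erase A).erase B)) = pull ι Q := by
        ext X
        rw [mem_pull, mem_pull]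
        simp only [mem_insert, mem_erase]
        constructor
        · rintro ⟨hX, C, hC | hC, rfl⟩
          · refine ⟨hX, B, hB, ?_⟩
            rw [hC, pre_union, hAe, empty_union]
          · exact ⟨hX, C, hC.2.2, rfl⟩
        · rintro ⟨hX, C, hC, rfl⟩
          refine ⟨hX, ?_⟩
          by_cases h4 : C = B
          · refine ⟨A ∪ B, Or.inl rfl, ?_⟩
            rw [h4, pre_union, hAe, empty_union]
          · refine ⟨C, Or.inr ⟨h4, ?_, hC⟩, rfl⟩
            rintro rfl
            rw [hAe] at hX
            exact Finset.not_nonempty_empty hX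
      rw [he] at h3
      exact h3 s' hs'

/-- **Restriction does not increase the twin-width.** -/
theorem twwLe_pull [Fintype W] {r t : ℕ} {c : Finset W → κ} {ι : V → W}
    (hι : Function.Injective ι) (h : TwwLe r c t) : TwwLe r (fun e => c (e.image ι)) t := by
  rcases isEmpty_or_nonempty V with hV | hV
  · exact twwLe_empty
  · obtain ⟨v⟩ := hV
    have : Nonempty W := ⟨ι v⟩
    have : Nonempty V := ⟨v⟩
    rw [twwLe_iff_con] at h ⊢
    have hn : 0 < Fintype.card V := Fintype.card_pos
    have hn' : 0 < Fintype.card W := Fintype.card_pos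
    have he : pull ι (Finset.univ.image (fun w : W => ({w} : Finset W))) =
        Finset.univ.image (fun v : V => ({v} : Finset V)) := by
      ext X
      rw [mem_pull, mem_image]
      constructor
      · rintro ⟨hX, A, hA, rfl⟩
        obtain ⟨w, -, rfl⟩ := mem_image.1 hA
        obtain ⟨u, hu⟩ := hX
        have hu' := mem_pre.1 hu
        rw [mem_singleton] at hu'
        refine ⟨u, mem_univ _, ?_⟩
        ext x
        rw [mem_singleton, mem_pre, mem_singleton]
        constructor
        · rintro rfl; exact hu'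
        · intro hx; exact hι (hx.trans hu'.symm)
      · rintro ⟨u, -, rfl⟩
        refine ⟨singleton_nonempty u, {ι u}, mem_image_of_mem _ (mem_univ _), ?_⟩
        ext x
        rw [mem_singleton, mem_pre, mem_singleton]
        exact ⟨fun hx => hι hx, fun hx => by rw [hx]⟩
    have h1 := con_pull hι (Fintype.card W - 1) _ isPart_zero (by rw [card_sing]; omega) h
      (Fintype.card V - 1) (by rw [he, card_sing]; omega)
    rw [he] at h1
    exact h1

end

end Pool.Agent.T2H11.HT
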